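import Pool.Agent.E8helper8.EC.Stm

/-! The functions `f̃` and `f`. -/

set_option autoImplicit false

open CategoryTheory Simplicial Opposite unitInterval

namespace Pool.Agent.E8helper36.EC

open Pool.Agent.E8helper8.EC

lemma push_apply {m n : ℕ} (α : ⦋m⦌ ⟶ ⦋n⦌) (x : Dl m) (i : Fin (n + 1)) :
    push α x i = ∑ j with α.toOrderHom j = i, x j := by
  show stdSimplex.map α.toOrderHom x i = _
  rw [stdSimplex.map_coe, FunOnFinite.linearMap_apply_apply]

lemma push_sum {m n : ℕ} (α : ⦋m⦌ ⟶ ⦋n⦌) (x : Dl m) (c : Fin (n + 1) → ℝ) :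
    ∑ i, push α x i * c i = ∑ j : Fin (m + 1), x j * c (α.toOrderHom j) := by
  rw [← Finset.sum_fiberwise Finset.univ α.toOrderHom (fun j => x j * c (α.toOrderHom j))]
  refine Finset.sum_congr rfl fun i _ => ?_
  rw [push_apply, Finset.sum_mul]
  refine Finset.sum_congr rfl fun j hj => ?_
  rw [(Finset.mem_filter.1 hj).2]

lemma cont_sum {n : ℕ} (c : Fin (n + 1) → ℝ) : Continuous fun x : Dl n => ∑ i, x i * c i := by
  refine continuous_finsetSum _ fun i _ => ?_
  exact ((continuous_apply i).comp continuous_subtype_val).mul continuous_const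

theorem t_FF : S_FF := by
  intro hR G u
  constructor
  · obtain ⟨F, hF⟩ := hR.2.1 (Cv u Set.univ) ℝ
      (fun n v => ⟨fun x => ∑ i, x i * ((v.1 i).2 : ℝ), cont_sum _⟩)
      (fun n m α s x => (push_sum α x (fun i => ((s.1 i).2 : ℝ))).symm)
    exact ⟨F, hF⟩
  · obtain ⟨f, hf⟩ := hR.2.1 (Eu u) (AddCircle (1 : ℝ))
      (fun n w => ⟨fun x => ((∑ i, x i * (u (w.1 0) (w.1 i) : ℝ) : ℝ) : AddCircle (1 : ℝ)),
        (AddCircle.continuous_mk' 1).comp (cont_sum _)⟩)
      (by
        intro n m α w x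
        have h1 := push_sum α x (fun i => (u (w.1 0) (w.1 i) : ℝ))
        show ((∑ j : Fin (m + 1), x j * (u (w.1 (α.toOrderHom 0)) (w.1 (α.toOrderHom j)) : ℝ) : ℝ) :
          AddCircle (1 : ℝ)) = ((∑ i, push α x i * (u (w.1 0) (w.1 i) : ℝ) : ℝ) : AddCircle (1 : ℝ))
        rw [h1]
        have h2 : ∑ j : Fin (m + 1), x j * (u (w.1 0) (w.1 (α.toOrderHom j)) : ℝ) =
            (u (w.1 0) (w.1 (α.toOrderHom 0)) : ℝ) +
            ∑ j : Fin (m + 1), x j * (u (w.1 (α.toOrderHom 0)) (w.1 (α.toOrderHom j)) : ℝ) := by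
          have h3 : ∀ j : Fin (m + 1), x j * (u (w.1 0) (w.1 (α.toOrderHom j)) : ℝ) =
              x j * (u (w.1 0) (w.1 (α.toOrderHom 0)) : ℝ) +
              x j * (u (w.1 (α.toOrderHom 0)) (w.1 (α.toOrderHom j)) : ℝ) := by
            intro j
            rw [← w.2 0 (α.toOrderHom 0) (α.toOrderHom j)]
            push_cast
            ring
          rw [Finset.sum_congr rfl fun j _ => h3 j, Finset.sum_add_distrib, ← Finset.sum_mul,
            stdSimplex.sum_eq_one, one_mul]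
        rw [h2, AddCircle.coe_add]
        have h4 : ((u (w.1 0) (w.1 (α.toOrderHom 0)) : ℝ) : AddCircle (1 : ℝ)) = 0 := by
          rw [AddCircle.coe_eq_zero_iff]
          exact ⟨u (w.1 0) (w.1 (α.toOrderHom 0)), by simp⟩
        rw [h4, zero_add])
    exact ⟨f, hf⟩

end Pool.Agent.E8helper36.EC
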