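import Pool.Agent.E8helper8.EC.Stm

/-! Group theory of the Heisenberg group of infinite rank. -/

set_option autoImplicit false

namespace Pool.Agent.E8helper36.EC

open Pool.Agent.E8helper8.EC
open Heis (mul_def one_def inv_def om_zero_left om_neg_left)

lemma om_neg_right (a b : V) : om a (-b) = -om a b := by
  rw [om_symm, om_neg_left, om_symm a b]
  ring

lemma comm_iff (x y : Heis) : x * y = y * x ↔ om x.a y.a = 0 := by
  rw [mul_def, mul_def, Heis.mk.injEq, om_symm x.a y.a]
  constructor
  · rintro ⟨-, h⟩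
    omega
  · intro h
    exact ⟨add_comm _ _, by omega⟩

lemma inv_mul_a (x y : Heis) : (x⁻¹ * y).a = -x.a + y.a := by
  rw [inv_def, mul_def]

lemma om_diff (x a b : V) : om (-x + a) (-x + b) = om a b - om x b + om x a := by
  rw [om_add_left, om_add_right, om_add_right, om_neg_left, om_neg_left, om_neg_right,
    om_neg_right, om_self, om_symm x a]
  ring

theorem t_HEIS : S_HEIS := by
  refine ⟨fun x => by rw [uH, om_self]; ring, fun n g => ⟨?_, ?_⟩⟩
  · rintro ⟨x, A, hA, hg⟩ i j k
    have key : ∀ i j, om (g i).a (g j).a - om x.a (g j).a + om x.a (g i).a = 0 := by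
      intro i j
      have h1 := (comm_iff _ _).1 (hA _ (hg i) _ (hg j))
      rwa [inv_mul_a, inv_mul_a, om_diff] at h1
    have h1 := key i j
    have h2 := key j k
    have h3 := key i k
    simp only [uH]
    omega
  · intro h
    have hc : ∀ a ∈ Set.range (fun i => (g 0)⁻¹ * g i), ∀ b ∈ Set.range (fun i => (g 0)⁻¹ * g i),
        a * b = b * a := by
      rintro _ ⟨i, rfl⟩ _ ⟨j, rfl⟩
      rw [comm_iff]
      simp only [inv_mul_a]
      rw [om_diff]
      have h1 := h 0 i j
      simp only [uH] at h1
      omega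
    refine ⟨g 0, Subgroup.closure (Set.range (fun i => (g 0)⁻¹ * g i)), ?_, fun i =>
      Subgroup.subset_closure ⟨i, rfl⟩⟩
    intro a ha b hb
    letI := Subgroup.closureCommGroupOfComm hc
    exact congrArg Subtype.val (mul_comm (⟨a, ha⟩ : Subgroup.closure
      (Set.range (fun i => (g 0)⁻¹ * g i))) ⟨b, hb⟩)

lemma pr_single (n : ℕ) (q : ℕ →₀ ℤ) : pr (Finsupp.single n 1) q = q n := by
  unfold pr
  rw [Finsupp.sum_single_index] <;> simp

theorem t_CTR : S_CTR := by
  intro hf
  haveI : Finite (Heis ⧸ Subgroup.center Heis) := Subgroup.finiteIndex_iff_finite_quotient.1 hf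
  let f : ℕ → Heis ⧸ Subgroup.center Heis := fun n =>
    ((⟨(Finsupp.single n 1, 0), 0⟩ : Heis) : Heis ⧸ Subgroup.center Heis)
  have hinj : Function.Injective f := by
    intro m n hmn
    have h1 := QuotientGroup.eq.1 hmn
    rw [Subgroup.mem_center_iff] at h1
    have h2 := (comm_iff _ _).1 (h1 ⟨(0, Finsupp.single n 1), 0⟩)
    rw [inv_mul_a, om_symm, om_add_left, om_neg_left] at h2
    have h3 : ∀ k, om (Finsupp.single k 1, 0) (0, Finsupp.single n 1) =
        (Finsupp.single n (1 : ℤ)) k := by
      intro k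
      unfold om
      simp only
      rw [pr_single]
      have : pr 0 0 = 0 := by unfold pr; exact Finsupp.sum_zero_index
      rw [this, sub_zero]
    rw [h3, h3, Finsupp.single_eq_same] at h2
    by_contra hne
    rw [Finsupp.single_apply, if_neg (Ne.symm hne)] at h2
    omega
  exact not_injective_infinite_finite f hinj

end Pool.Agent.E8helper36.EC
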