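import Pool.Agent.E8helper8.EC.Stm

/-! The realization of a monomorphism of simplicial sets is injective. -/

set_option autoImplicit false

open CategoryTheory Simplicial Opposite unitInterval Limits

namespace Pool.Agent.E8helper36.EC

open Pool.Agent.E8helper8.EC

/-- a type with the indiscrete topology -/
def ind (T : Type) : TopCat.{0} := @TopCat.of T ⊤

/-- any function to it is continuous -/
def toInd {X : TopCat.{0}} {T : Type} (g : X → T) : X ⟶ ind T :=
  @TopCat.ofHom X T _ ⊤ (@ContinuousMap.mk X T _ ⊤ g continuous_top)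

/-- the underlying function -/
def fn {X : TopCat.{0}} {T : Type} (f : X ⟶ ind T) : X → T := fun x => f.hom x

lemma toInd_fn {X : TopCat.{0}} {T : Type} (f : X ⟶ ind T) : toInd (fn f) = f := rfl

lemma fn_toInd {X : TopCat.{0}} {T : Type} (g : X → T) : fn (toInd g) = g := rfl

lemma comp_toInd {X X' : TopCat.{0}} {T : Type} (f : X ⟶ X') (g : X' → T) :
    f ≫ toInd g = toInd (fun x => g (f.hom x)) := rfl

/-- the map to the terminal object -/
noncomputable def pT (T : Type) : TopCat.toSSet.obj (ind T) ⟶ ⊤_ SSet.{0} := terminal.from _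

lemma lp_of_inj {X Z : SSet.{0}} (i : X ⟶ Z) (hi : Function.Injective (rmap i)) {T : Type}
    (y0 : T) : HasLiftingProperty i (pT T) := by
  constructor
  intro f g sq
  constructor
  refine ⟨⟨sSetTopAdj.homEquiv _ _ (toInd (Function.extend (rmap i)
    (fn ((sSetTopAdj.homEquiv _ _).symm f)) (fun _ => y0))), ?_, terminal.hom_ext _ _⟩⟩
  rw [← Adjunction.homEquiv_naturality_left, comp_toInd]
  have h1 : (fun x => Function.extend (rmap i) (fn ((sSetTopAdj.homEquiv X (ind T)).symm f))
      (fun _ => y0) ((SSet.toTop.map i).hom x)) = fn ((sSetTopAdj.homEquiv X (ind T)).symm f) := by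
    funext x
    exact hi.extend_apply _ _ x
  rw [h1, toInd_fn, Equiv.apply_symm_apply]

theorem t_INJ : S_INJ := by
  intro hR hB A B i hi
  rcases isEmpty_or_nonempty (Rl A) with hA | ⟨⟨y0⟩⟩
  · exact fun a => hA.elim a
  have h1 : (MorphismProperty.monomorphisms SSet.{0}).rlp (pT (Rl A)) := by
    rw [SSet.rlp_monomorphisms]
    rintro _ _ _ ⟨n⟩
    exact lp_of_inj _ (hB hR n) y0
  have h2 : HasLiftingProperty i (pT (Rl A)) := h1 i hi
  have sq : CommSq (sSetTopAdj.homEquiv A (ind (Rl A)) (toInd id)) i (pT (Rl A))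
      (terminal.from B) := ⟨terminal.hom_ext _ _⟩
  have h3 := sq.fac_left
  have h4 := congrArg (sSetTopAdj.homEquiv A (ind (Rl A))).symm h3
  rw [Equiv.symm_apply_apply, Adjunction.homEquiv_naturality_left_symm] at h4
  have h5 : ∀ x : Rl A, fn ((sSetTopAdj.homEquiv B (ind (Rl A))).symm sq.lift) (rmap i x) = x :=
    fun x => congrFun (congrArg fn h4) x
  intro x y hxy
  rw [← h5 x, ← h5 y, hxy]

end Pool.Agent.E8helper36.EC
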